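import Pool.Agent.Helper48.AA.Goals
import Mathlib

set_option autoImplicit false

open Finset

open scoped Classical

namespace Pool.Agent.Helper13.AA

open Pool.Agent.Helper48.AA

theorem cnt (X m : ℕ) (hm : 1 ≤ m) (hmX : m ≤ X) (A : Finset ℕ) (hA : A ⊆ Icc 1 X)
    (h : ∀ x ∈ A, ∀ y ∈ A, x ≡ y [MOD m]) : A.card * m ≤ 2 * X := by
  have h1 : A.card ≤ X / m + 1 := by
    have : A.card ≤ (range (X / m + 1)).card := by
      apply Finset.card_le_card_of_injOn (fun x => x / m)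
      · intro x hx
        have := mem_Icc.1 (hA hx)
        simp only [coe_range, Set.mem_Iio]
        exact Nat.lt_succ_of_le (Nat.div_le_div_right this.2)
      · intro x hx y hy hxy
        have h2 := h x hx y hy
        have e1 := Nat.div_add_mod x m
        have e2 := Nat.div_add_mod y m
        simp only at hxy
        unfold Nat.ModEq at h2
        rw [← e1, ← e2, hxy, h2]
    simpa using this
  calc A.card * m ≤ (X / m + 1) * m := Nat.mul_le_mul_right _ h1
    _ = X / m * m + m := by ring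
    _ ≤ X + m := by have := Nat.div_mul_le_self X m; omega
    _ ≤ 2 * X := by omega

theorem dvd_key (d : Fin 4 → ℕ) (U : Finset (Fin 4)) (q : ℕ) (k k' : Fin 4) (hk : k ∉ U)
    (hkk : k' ≠ k) (h1 : q ∣ d k) (h2 : q ∣ d k') :
    univ.lcm d * q ∣ U.lcm d * ∏ j ∈ univ \ U, d j := by
  have hk' : k ∈ univ \ U := by simp [hk]
  rw [← mul_prod_erase _ _ hk']
  set M := U.lcm d * ∏ j ∈ (univ \ U).erase k, d j with hM
  have e : U.lcm d * (d k * ∏ j ∈ (univ \ U).erase k, d j) = d k * M := by rw [hM]; ring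
  rw [e]
  have hall : ∀ j, j ≠ k → d j ∣ M := by
    intro j hj
    by_cases hjU : j ∈ U
    · exact Dvd.dvd.mul_right (dvd_lcm hjU) _
    · exact Dvd.dvd.mul_left (dvd_prod_of_mem d (mem_erase.2 ⟨hj, by simp [hjU]⟩)) _
  have hL : univ.lcm d ∣ Nat.lcm (d k) M := by
    apply Finset.lcm_dvd
    intro j _
    by_cases hj : j = k
    · subst hj; exact Nat.dvd_lcm_left _ _
    · exact (hall j hj).trans (Nat.dvd_lcm_right _ _)
  have hq : q ∣ Nat.gcd (d k) M := Nat.dvd_gcd h1 (h2.trans (hall k' hkk))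
  calc univ.lcm d * q ∣ Nat.lcm (d k) M * Nat.gcd (d k) M := mul_dvd_mul hL hq
    _ = d k * M := by rw [mul_comm]; exact Nat.gcd_mul_lcm _ _

theorem dvd_key2 (d : Fin 4 → ℕ) (U : Finset (Fin 4)) :
    univ.lcm d ∣ U.lcm d * ∏ j ∈ univ \ U, d j := by
  apply Finset.lcm_dvd
  intro j _
  by_cases hjU : j ∈ U
  · exact Dvd.dvd.mul_right (dvd_lcm hjU) _
  · exact Dvd.dvd.mul_left (dvd_prod_of_mem d (by simp [hjU])) _

theorem gMB1 : StmtMB1 := by
  intro d a X q i hq hd hX hi h0 hqi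
  set I : ℝ := if a 0 ≡ a i [MOD q] then 1 else 0 with hI
  have hI0 : 0 ≤ I := by rw [hI]; split_ifs <;> norm_num
  have hLne : univ.lcm d ≠ 0 := by
    intro h
    rw [Finset.lcm_eq_zero_iff] at h
    obtain ⟨j, _, hj⟩ := h
    have := hd j
    omega
  have hLpos : 0 < univ.lcm d := Nat.pos_of_ne_zero hLne
  have hLR : (0 : ℝ) < ((univ.lcm d : ℕ) : ℝ) := by exact_mod_cast hLpos
  have hqR : (0 : ℝ) < (q : ℝ) := by exact_mod_cast hq.pos
  have hXR : (0 : ℝ) ≤ (X : ℝ) := Nat.cast_nonneg X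
  have hterm : ∀ U ∈ (univ : Finset (Fin 4)).powerset,
      ∑ x ∈ Icc 1 X, (∏ j ∈ U, (if d j ∣ x + a j then (1 : ℝ) else 0)) * ∏ j ∈ univ \ U, (1 / (d j : ℝ))
        ≤ 2 * X / ((univ.lcm d : ℕ) : ℝ) * (1 / q + I) := by
    intro U _
    rw [← sum_mul]
    set A := (Icc 1 X).filter (fun x => ∀ j ∈ U, d j ∣ x + a j) with hA
    have e1 : ∑ x ∈ Icc 1 X, ∏ j ∈ U, (if d j ∣ x + a j then (1 : ℝ) else 0) = (A.card : ℝ) := by
      rw [hA, card_filter, Nat.cast_sum]
      refine sum_congr rfl fun x _ => ?_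
      by_cases h : ∀ j ∈ U, d j ∣ x + a j
      · rw [prod_congr rfl (fun j hj => if_pos (h j hj)), if_pos h]
        simp
      · rw [if_neg h]
        push Not at h
        obtain ⟨j, hj, hj'⟩ := h
        rw [prod_eq_zero hj (if_neg hj')]
        simp
    rw [e1]
    set E := ∏ j ∈ univ \ U, d j with hE
    have hEpos : 0 < E := prod_pos fun j _ => hd j
    have hER : (0 : ℝ) < (E : ℝ) := by exact_mod_cast hEpos
    have e2 : ∏ j ∈ univ \ U, (1 / (d j : ℝ)) = 1 / (E : ℝ) := by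
      rw [hE, Nat.cast_prod, prod_div_distrib]
      simp
    rw [e2]
    have hmne : U.lcm d ≠ 0 := by
      intro h
      rw [Finset.lcm_eq_zero_iff] at h
      obtain ⟨j, _, hj⟩ := h
      have := hd j
      omega
    have hmdvd : U.lcm d ∣ ∏ j, d j := by
      apply Finset.lcm_dvd
      intro j _
      exact dvd_prod_of_mem d (mem_univ j)
    have hmX : U.lcm d ≤ X :=
      (Nat.le_of_dvd (prod_pos fun j _ => hd j) hmdvd).trans hX
    have hcong : ∀ x ∈ A, ∀ y ∈ A, x ≡ y [MOD U.lcm d] := by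
      intro x hx y hy
      rw [Nat.modEq_iff_dvd, Int.natCast_dvd]
      apply Finset.lcm_dvd
      intro j hj
      rw [← Int.natCast_dvd]
      have h1 : (d j : ℤ) ∣ ((y + a j : ℕ) : ℤ) :=
        Int.natCast_dvd_natCast.2 ((mem_filter.1 hy).2 j hj)
      have h2 : (d j : ℤ) ∣ ((x + a j : ℕ) : ℤ) :=
        Int.natCast_dvd_natCast.2 ((mem_filter.1 hx).2 j hj)
      have h3 := dvd_sub h1 h2
      have e : ((y + a j : ℕ) : ℤ) - ((x + a j : ℕ) : ℤ) = (y : ℤ) - x := by push_cast; ring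
      rwa [e] at h3
    have hc := cnt X (U.lcm d) (Nat.pos_of_ne_zero hmne) hmX A (filter_subset _ _) hcong
    have hcR : (A.card : ℝ) * ((U.lcm d : ℕ) : ℝ) ≤ 2 * X := by exact_mod_cast hc
    have hcase : (univ.lcm d * q ∣ U.lcm d * E) →
        (A.card : ℝ) * (1 / (E : ℝ)) ≤ 2 * X / ((univ.lcm d : ℕ) : ℝ) * (1 / q + I) := by
      intro hdv
      have hle : univ.lcm d * q ≤ U.lcm d * E :=
        Nat.le_of_dvd (Nat.mul_pos (Nat.pos_of_ne_zero hmne) hEpos) hdv
      have hleR : ((univ.lcm d : ℕ) : ℝ) * q ≤ ((U.lcm d : ℕ) : ℝ) * E := by exact_mod_cast hle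
      have h1 : (A.card : ℝ) * (1 / (E : ℝ)) ≤ 2 * X / ((univ.lcm d : ℕ) : ℝ) * (1 / q) := by
        rw [mul_one_div, mul_one_div, div_div, div_le_div_iff₀ hER (mul_pos hLR hqR)]
        calc (A.card : ℝ) * (((univ.lcm d : ℕ) : ℝ) * q)
            ≤ (A.card : ℝ) * (((U.lcm d : ℕ) : ℝ) * E) :=
              mul_le_mul_of_nonneg_left hleR (Nat.cast_nonneg _)
          _ = ((A.card : ℝ) * ((U.lcm d : ℕ) : ℝ)) * E := by ring
          _ ≤ 2 * X * E := mul_le_mul_of_nonneg_right hcR hER.le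
      refine h1.trans ?_
      apply mul_le_mul_of_nonneg_left _ (by positivity)
      linarith
    by_cases hU0 : (0 : Fin 4) ∈ U
    · by_cases hUi : i ∈ U
      · rcases A.eq_empty_or_nonempty with hAe | ⟨x, hx⟩
        · rw [hAe]
          simp only [card_empty, Nat.cast_zero, zero_mul]
          positivity
        · have hx' := (mem_filter.1 hx).2
          have hx0 : q ∣ x + a 0 := h0.trans (hx' 0 hU0)
          have hxi : q ∣ x + a i := hqi.trans (hx' i hUi)
          have hmod : a 0 ≡ a i [MOD q] := by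
            have h2 : x + a 0 ≡ x + a i [MOD q] :=
              ((Nat.modEq_zero_iff_dvd.2 hx0).trans (Nat.modEq_zero_iff_dvd.2 hxi).symm)
            exact Nat.ModEq.add_left_cancel' x h2
          have hI1 : I = 1 := by rw [hI, if_pos hmod]
          have hle : univ.lcm d ≤ U.lcm d * E :=
            Nat.le_of_dvd (Nat.mul_pos (Nat.pos_of_ne_zero hmne) hEpos) (dvd_key2 d U)
          have hleR : ((univ.lcm d : ℕ) : ℝ) ≤ ((U.lcm d : ℕ) : ℝ) * E := by exact_mod_cast hle
          have h1 : (A.card : ℝ) * (1 / (E : ℝ)) ≤ 2 * X / ((univ.lcm d : ℕ) : ℝ) * 1 := by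
            rw [mul_one_div, mul_one, div_le_div_iff₀ hER hLR]
            calc (A.card : ℝ) * ((univ.lcm d : ℕ) : ℝ)
                ≤ (A.card : ℝ) * (((U.lcm d : ℕ) : ℝ) * E) :=
                  mul_le_mul_of_nonneg_left hleR (Nat.cast_nonneg _)
              _ = ((A.card : ℝ) * ((U.lcm d : ℕ) : ℝ)) * E := by ring
              _ ≤ 2 * X * E := mul_le_mul_of_nonneg_right hcR hER.le
          refine h1.trans ?_
          apply mul_le_mul_of_nonneg_left _ (by positivity)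
          have : 0 ≤ 1 / (q : ℝ) := by positivity
          linarith
      · exact hcase (dvd_key d U q i 0 hUi (Ne.symm hi) hqi h0)
    · exact hcase (dvd_key d U q 0 i hU0 hi h0 hqi)
  calc ∑ x ∈ Icc 1 X, ∏ j, ((if d j ∣ x + a j then (1 : ℝ) else 0) + 1 / (d j : ℝ))
      = ∑ x ∈ Icc 1 X, ∑ U ∈ (univ : Finset (Fin 4)).powerset,
        (∏ j ∈ U, (if d j ∣ x + a j then (1 : ℝ) else 0)) * ∏ j ∈ univ \ U, (1 / (d j : ℝ)) := by
        refine sum_congr rfl fun x _ => ?_
        rw [prod_add]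
    _ = ∑ U ∈ (univ : Finset (Fin 4)).powerset, ∑ x ∈ Icc 1 X,
        (∏ j ∈ U, (if d j ∣ x + a j then (1 : ℝ) else 0)) * ∏ j ∈ univ \ U, (1 / (d j : ℝ)) := sum_comm
    _ ≤ ∑ U ∈ (univ : Finset (Fin 4)).powerset, 2 * X / ((univ.lcm d : ℕ) : ℝ) * (1 / q + I) :=
        sum_le_sum hterm
    _ = 32 * X / ((univ.lcm d : ℕ) : ℝ) * (1 / q + I) := by
        rw [sum_const, card_powerset, card_univ, Fintype.card_fin, nsmul_eq_mul]
        push_cast
        ring

end Pool.Agent.Helper13.AA
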